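import Pool.Agent.Helper78.SchMain

set_option autoImplicit false

namespace Pool.Agent.Results.MP_1ec91f_co.Sublinear

open Filter Asymptotics

/-! ### The notions of the question -/

open Classical in
/-- The Schrödinger operator `D + A_G` of the graph `G` on `n` vertices with the real potential
`D` (the diagonal of the diagonal matrix). -/
noncomputable def schrodinger {n : ℕ} (G : SimpleGraph (Fin n)) (D : Fin n → ℝ) :
    Matrix (Fin n) (Fin n) ℝ := Matrix.diagonal D + G.adjMatrix ℝ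

/-- `D + A_G` is real symmetric. -/
theorem schrodinger_isHermitian {n : ℕ} (G : SimpleGraph (Fin n)) (D : Fin n → ℝ) :
    (schrodinger G D).IsHermitian := by
  classical
  unfold schrodinger
  apply Matrix.IsHermitian.add
  · exact Matrix.isHermitian_diagonal _
  · ext i j
    simp [Matrix.conjTranspose_apply, SimpleGraph.adjMatrix_apply, G.adj_comm]

/-- The second largest eigenvalue `λ₂(D + A_G)`: the eigenvalues are counted with multiplicity and
listed in decreasing order `λ₁ ≥ λ₂ ≥ …`; Mathlib's `eigenvalues₀` is indexed from `0`. -/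
noncomputable def lam2 {n : ℕ} (hn : 2 ≤ n) (G : SimpleGraph (Fin n)) (D : Fin n → ℝ) : ℝ :=
  (schrodinger_isHermitian G D).eigenvalues₀ ⟨1, by rw [Fintype.card_fin]; exact hn⟩

/-- The multiplicity of the number `λ₂(D + A_G)` as an eigenvalue of `D + A_G`
(the dimension of its eigenspace). -/
noncomputable def multLam2 {n : ℕ} (hn : 2 ≤ n) (G : SimpleGraph (Fin n)) (D : Fin n → ℝ) : ℕ :=
  Module.finrank ℝ (Module.End.eigenspace (Matrix.toLin' (schrodinger G D)) (lam2 hn G D))

/-- The multiplicities of `λ₂(D + A_G)` that occur, over all connected graphs `G` on `n` vertices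
with maximum degree at most `Δ` and all real diagonal matrices `D`. -/
def mults (n Δ : ℕ) : Set ℕ :=
  {k | ∃ (hn : 2 ≤ n) (G : SimpleGraph (Fin n)) (D : Fin n → ℝ),
    G.Connected ∧ (∀ v, (G.neighborSet v).ncard ≤ Δ) ∧ k = multLam2 hn G D}

/-- `m_S(n, Δ)`, the maximum of `mult(λ₂, D + A_G)`. -/
noncomputable def mS (n Δ : ℕ) : ℕ := sSup (mults n Δ)

theorem mults_bdd (n Δ : ℕ) : BddAbove (mults n Δ) := by
  refine ⟨n, ?_⟩
  rintro k ⟨hn, G, D, _, _, rfl⟩
  have := Submodule.finrank_le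
    (Module.End.eigenspace (Matrix.toLin' (schrodinger G D)) (lam2 hn G D))
  simpa [multLam2] using this

/-- **Theorem.** `m_S(n, Δ)` is a maximum (whenever there is a graph to consider), and for every
fixed `Δ` one has `m_S(n, Δ) = o(n)` as `n → ∞`; explicitly, for every `ε > 0` and all large `n`
the second eigenvalue of every Schrödinger operator on every connected `n`-vertex graph with
maximum degree at most `Δ` has multiplicity at most `ε n`. -/
theorem result :
    (∀ n Δ : ℕ, (mults n Δ).Nonempty → IsGreatest (mults n Δ) (mS n Δ)) ∧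
    (∀ Δ : ℕ, (fun n : ℕ => (mS n Δ : ℝ)) =o[atTop] (fun n : ℕ => (n : ℝ))) ∧
    (∀ (Δ : ℕ) (ε : ℝ), 0 < ε → ∃ N : ℕ, ∀ n ≥ N, ∀ (hn : 2 ≤ n) (G : SimpleGraph (Fin n))
      (D : Fin n → ℝ), G.Connected → (∀ v, (G.neighborSet v).ncard ≤ Δ) →
      (multLam2 hn G D : ℝ) ≤ ε * n) := by
  have hmain : ∀ (Δ : ℕ) (ε : ℝ), 0 < ε → ∃ N : ℕ, ∀ n ≥ N, ∀ (hn : 2 ≤ n)
      (G : SimpleGraph (Fin n)) (D : Fin n → ℝ), G.Connected →
      (∀ v, (G.neighborSet v).ncard ≤ Δ) → (multLam2 hn G D : ℝ) ≤ ε * n :=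
    fun Δ ε hε => Sch.main Δ ε hε
  refine ⟨fun n Δ hne => ⟨Nat.sSup_mem hne (mults_bdd n Δ), fun k hk => le_csSup (mults_bdd n Δ) hk⟩,
    fun Δ => ?_, hmain⟩
  rw [isLittleO_iff]
  intro ε hε
  obtain ⟨N, hN⟩ := hmain Δ ε hε
  filter_upwards [eventually_ge_atTop N] with n hn
  rw [Real.norm_natCast, Real.norm_natCast]
  rcases (mults n Δ).eq_empty_or_nonempty with h0 | hne
  · have : mS n Δ = 0 := by unfold mS; rw [h0]; exact csSup_empty
    rw [this]; simp only [Nat.cast_zero]; positivity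
  · obtain ⟨h2, G, D, hG, hd, hk⟩ := Nat.sSup_mem hne (mults_bdd n Δ)
    have : mS n Δ = multLam2 h2 G D := hk
    rw [this]
    exact hN n hn h2 G D hG hd

end Pool.Agent.Results.MP_1ec91f_co.Sublinear
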